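import Pool.Agent.H180Z.AK.Main

set_option autoImplicit false

namespace Pool.Agent.Results.MP_169869_co.ARankOneSlopes

/-- Slopes taken from finitely many two-sided geometric progressions with one common rational ratio
(and the slope at infinity) never give an exponent close to one. -/
theorem result (T : ℚ) (hT : 1 < T) (C : Finset ℚ) :
    ∃ ε : ℝ, 0 < ε ∧ ∀ S : Finset ℚ, (-1 : ℚ) ∉ S → (∀ r ∈ S, ∃ c ∈ C, ∃ i : ℤ, r = c * T ^ i) →
      ∃ A : Finset (ℤ × ℤ),
        (max ((A.image (fun p : ℤ × ℤ => (p.2 : ℚ))).card : ℝ)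
            ((S.sup (fun r : ℚ =>
              (A.image (fun p : ℤ × ℤ => (p.1 : ℚ) + r * (p.2 : ℚ))).card) : ℕ) : ℝ)) ^ (1 + ε) <
          ((A.image (fun p : ℤ × ℤ => (p.1 : ℚ) + (-1) * (p.2 : ℚ))).card : ℝ) :=
  Pool.Agent.H180Z.AK.obstruction T hT C

end Pool.Agent.Results.MP_169869_co.ARankOneSlopes
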